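import Mathlib

set_option autoImplicit false

namespace Pool.Agent.Results.MP_a5d893_al.NewtonFails

open Matrix

/-- The minor `A[α, β]` with rows `α` and columns `β`, where `α` and `β` are increasing index
sequences of the same length `k`. -/
noncomputable def minor {n k : ℕ} (A : Matrix (Fin n) (Fin n) ℝ) (α β : Fin k ↪o Fin n) : ℝ :=
  (A.submatrix α β).det

/-- The set of entries of an increasing index sequence. -/
def seqSet {n k : ℕ} (α : Fin k ↪o Fin n) : Finset (Fin n) :=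
  Finset.univ.map α.toEmbedding

/-- The principal submatrix `A(α)` on the index set `α`. -/
def prin {n : ℕ} (A : Matrix (Fin n) (Fin n) ℝ) (α : Finset (Fin n)) : Matrix α α ℝ :=
  A.submatrix (fun i => (i : Fin n)) (fun i => (i : Fin n))

/-- `A` is a `P`-matrix: all principal minors are positive. -/
def IsPMatrix {n : ℕ} (A : Matrix (Fin n) (Fin n) ℝ) : Prop :=
  ∀ α : Finset (Fin n), 0 < (prin A α).det

/-- `A` is weakly sign-symmetric: `A[α, β] A[β, α] ≥ 0` for all almost principal minors, that is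
for `#α = #β` and `#α - #(α ∩ β) = 1`. -/
def IsWeaklySignSymmetric {n : ℕ} (A : Matrix (Fin n) (Fin n) ℝ) : Prop :=
  ∀ (k : ℕ) (α β : Fin k ↪o Fin n),
    (seqSet α).card - (seqSet α ∩ seqSet β).card = 1 → 0 ≤ minor A α β * minor A β α

/-- `A` is GKK: a weakly sign-symmetric `P`-matrix. -/
def IsGKK {n : ℕ} (A : Matrix (Fin n) (Fin n) ℝ) : Prop :=
  IsWeaklySignSymmetric A ∧ IsPMatrix A

/-- The real elements of the (complex) spectrum of a real matrix. -/
def realEigs {m : Type*} [Fintype m] [DecidableEq m] (B : Matrix m m ℝ) : Set ℝ :=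
  {x | (x : ℂ) ∈ spectrum ℂ (B.map (fun t : ℝ => (t : ℂ)))}

/-- `l(B)`: the least real eigenvalue, and `⊤ = ∞` if there is none. -/
noncomputable def ell {m : Type*} [Fintype m] [DecidableEq m] (B : Matrix m m ℝ) : EReal :=
  sInf ((fun x : ℝ => (x : EReal)) '' realEigs B)

/-- `A` is an `ω`-matrix: `l(A(α)) ≤ l(A(β)) < ∞` whenever `∅ ≠ β ⊆ α`. -/
def IsOmega {n : ℕ} (A : Matrix (Fin n) (Fin n) ℝ) : Prop :=
  ∀ α β : Finset (Fin n), β.Nonempty → β ⊆ α →
    ell (prin A α) ≤ ell (prin A β) ∧ ell (prin A β) < ⊤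

/-- `A` is a `τ`-matrix: an `ω`-matrix with `l(A) ≥ 0`. -/
def IsTau {n : ℕ} (A : Matrix (Fin n) (Fin n) ℝ) : Prop :=
  IsOmega A ∧ 0 ≤ ell A

/-- The normalised coefficient `c_j`: the average of the principal minors of order `j`. -/
noncomputable def c {n : ℕ} (A : Matrix (Fin n) (Fin n) ℝ) (j : ℕ) : ℝ :=
  ((n.choose j : ℕ) : ℝ)⁻¹ * ∑ α ∈ (Finset.univ : Finset (Fin n)).powersetCard j, (prin A α).det

/-! ### The counterexample -/

/-- The integer counterexample. -/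
def M : Matrix (Fin 4) (Fin 4) ℤ :=
  !![10, 9, 9, 10; 0, 10, 9, 10; 0, 0, 10, 10; 72, 72, 72, 80]

/-- The counterexample as a real matrix. -/
def A₀ : Matrix (Fin 4) (Fin 4) ℝ := M.map (fun t : ℤ => (t : ℝ))

lemma A₀_apply (i j : Fin 4) : A₀ i j = ((M i j : ℤ) : ℝ) := rfl

/-! #### Weak sign symmetry -/

lemma wss1 : ∀ i j : Fin 4, 0 ≤ M i j * M j i := by decide

/-- integer 2x2 minor -/
def d2 (i0 i1 j0 j1 : Fin 4) : ℤ := M i0 j0 * M i1 j1 - M i0 j1 * M i1 j0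

lemma wss2 : ∀ i0 i1 j0 j1 : Fin 4, i0 < i1 → j0 < j1 →
    (({i0, i1} : Finset (Fin 4)) ∩ {j0, j1}).card = 1 → 0 ≤ d2 i0 i1 j0 j1 * d2 j0 j1 i0 i1 := by
  decide

/-- integer 3x3 minor -/
def d3 (i0 i1 i2 j0 j1 j2 : Fin 4) : ℤ :=
  M i0 j0 * M i1 j1 * M i2 j2 - M i0 j0 * M i1 j2 * M i2 j1 - M i0 j1 * M i1 j0 * M i2 j2 +
    M i0 j1 * M i1 j2 * M i2 j0 + M i0 j2 * M i1 j0 * M i2 j1 - M i0 j2 * M i1 j1 * M i2 j0

lemma three : ∀ i0 i1 i2 : Fin 4, i0 < i1 → i1 < i2 →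
    (i0 = 0 ∧ i1 = 1 ∧ i2 = 2) ∨ (i0 = 0 ∧ i1 = 1 ∧ i2 = 3) ∨
    (i0 = 0 ∧ i1 = 2 ∧ i2 = 3) ∨ (i0 = 1 ∧ i1 = 2 ∧ i2 = 3) := by decide

lemma wss3 (i0 i1 i2 j0 j1 j2 : Fin 4) (hi : i0 < i1) (hi' : i1 < i2) (hj : j0 < j1)
    (hj' : j1 < j2) : 0 ≤ d3 i0 i1 i2 j0 j1 j2 * d3 j0 j1 j2 i0 i1 i2 := by
  rcases three i0 i1 i2 hi hi' with ⟨rfl, rfl, rfl⟩ | ⟨rfl, rfl, rfl⟩ | ⟨rfl, rfl, rfl⟩ |
    ⟨rfl, rfl, rfl⟩ <;>
  rcases three j0 j1 j2 hj hj' with ⟨rfl, rfl, rfl⟩ | ⟨rfl, rfl, rfl⟩ | ⟨rfl, rfl, rfl⟩ |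
    ⟨rfl, rfl, rfl⟩ <;> decide

lemma card_seqSet {n k : ℕ} (α : Fin k ↪o Fin n) : (seqSet α).card = k := by
  simp [seqSet]

lemma weaklySignSymmetric : IsWeaklySignSymmetric A₀ := by
  intro k α β h
  have hk : k ≤ 4 := by
    have := Fintype.card_le_of_embedding α.toEmbedding
    simpa using this
  interval_cases k
  · rw [card_seqSet] at h; simp at h
  · -- k = 1
    have h1 : minor A₀ α β = ((M (α 0) (β 0) : ℤ) : ℝ) := by
      simp [minor, A₀_apply]
    have h2 : minor A₀ β α = ((M (β 0) (α 0) : ℤ) : ℝ) := by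
      simp [minor, A₀_apply]
    rw [h1, h2]
    exact_mod_cast wss1 (α 0) (β 0)
  · -- k = 2
    have h1 : minor A₀ α β = ((d2 (α 0) (α 1) (β 0) (β 1) : ℤ) : ℝ) := by
      simp [minor, A₀_apply, Matrix.det_fin_two, d2]
    have h2 : minor A₀ β α = ((d2 (β 0) (β 1) (α 0) (α 1) : ℤ) : ℝ) := by
      simp [minor, A₀_apply, Matrix.det_fin_two, d2]
    rw [h1, h2]
    have hα : α 0 < α 1 := α.strictMono (by decide)
    have hβ : β 0 < β 1 := β.strictMono (by decide)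
    have e : ∀ γ : Fin 2 ↪o Fin 4, seqSet γ = {γ 0, γ 1} := by
      intro γ
      ext x
      simp [seqSet, Fin.exists_fin_two, eq_comm]
    rw [card_seqSet, e, e] at h
    have hle : (({α 0, α 1} : Finset (Fin 4)) ∩ {β 0, β 1}).card = 1 := by omega
    exact_mod_cast wss2 _ _ _ _ hα hβ hle
  · -- k = 3
    have h1 : minor A₀ α β = ((d3 (α 0) (α 1) (α 2) (β 0) (β 1) (β 2) : ℤ) : ℝ) := by
      simp [minor, A₀_apply, Matrix.det_fin_three, d3]
    have h2 : minor A₀ β α = ((d3 (β 0) (β 1) (β 2) (α 0) (α 1) (α 2) : ℤ) : ℝ) := by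
      simp [minor, A₀_apply, Matrix.det_fin_three, d3]
    rw [h1, h2]
    exact_mod_cast wss3 _ _ _ _ _ _ (α.strictMono (by decide)) (α.strictMono (by decide))
      (β.strictMono (by decide)) (β.strictMono (by decide))
  · -- k = 4
    exfalso
    have e : ∀ γ : Fin 4 ↪o Fin 4, seqSet γ = Finset.univ := by
      intro γ
      apply Finset.eq_univ_of_card
      rw [card_seqSet]; simp
    rw [e, e] at h
    simp at h

/-! #### Determinants of principal submatrices -/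

/-- Explicit formula for a determinant of order four. -/
lemma det4 (m : Matrix (Fin 4) (Fin 4) ℝ) : m.det =
    m 0 0 * (m 1 1 * (m 2 2 * m 3 3 - m 2 3 * m 3 2) - m 1 2 * (m 2 1 * m 3 3 - m 2 3 * m 3 1)
      + m 1 3 * (m 2 1 * m 3 2 - m 2 2 * m 3 1))
    - m 0 1 * (m 1 0 * (m 2 2 * m 3 3 - m 2 3 * m 3 2) - m 1 2 * (m 2 0 * m 3 3 - m 2 3 * m 3 0)
      + m 1 3 * (m 2 0 * m 3 2 - m 2 2 * m 3 0))
    + m 0 2 * (m 1 0 * (m 2 1 * m 3 3 - m 2 3 * m 3 1) - m 1 1 * (m 2 0 * m 3 3 - m 2 3 * m 3 0)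
      + m 1 3 * (m 2 0 * m 3 1 - m 2 1 * m 3 0))
    - m 0 3 * (m 1 0 * (m 2 1 * m 3 2 - m 2 2 * m 3 1) - m 1 1 * (m 2 0 * m 3 2 - m 2 2 * m 3 0)
      + m 1 2 * (m 2 0 * m 3 1 - m 2 1 * m 3 0)) := by
  rw [Matrix.det_succ_row_zero, Fin.sum_univ_four]
  simp only [Matrix.det_fin_three, Matrix.submatrix_apply]
  have s0 : Fin.succ (0 : Fin 3) = 1 := rfl
  have s1 : Fin.succ (1 : Fin 3) = 2 := rfl
  have s2 : Fin.succ (2 : Fin 3) = 3 := rfl
  have a00 : Fin.succAbove (0 : Fin 4) (0 : Fin 3) = 1 := rfl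
  have a01 : Fin.succAbove (0 : Fin 4) (1 : Fin 3) = 2 := rfl
  have a02 : Fin.succAbove (0 : Fin 4) (2 : Fin 3) = 3 := rfl
  have a10 : Fin.succAbove (1 : Fin 4) (0 : Fin 3) = 0 := rfl
  have a11 : Fin.succAbove (1 : Fin 4) (1 : Fin 3) = 2 := rfl
  have a12 : Fin.succAbove (1 : Fin 4) (2 : Fin 3) = 3 := rfl
  have a20 : Fin.succAbove (2 : Fin 4) (0 : Fin 3) = 0 := rfl
  have a21 : Fin.succAbove (2 : Fin 4) (1 : Fin 3) = 1 := rfl
  have a22 : Fin.succAbove (2 : Fin 4) (2 : Fin 3) = 3 := rfl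
  have a30 : Fin.succAbove (3 : Fin 4) (0 : Fin 3) = 0 := rfl
  have a31 : Fin.succAbove (3 : Fin 4) (1 : Fin 3) = 1 := rfl
  have a32 : Fin.succAbove (3 : Fin 4) (2 : Fin 3) = 2 := rfl
  have v0 : ((0 : Fin 4) : ℕ) = 0 := rfl
  have v1 : ((1 : Fin 4) : ℕ) = 1 := rfl
  have v2 : ((2 : Fin 4) : ℕ) = 2 := rfl
  have v3 : ((3 : Fin 4) : ℕ) = 3 := rfl
  simp only [s0, s1, s2, a00, a01, a02, a10, a11, a12, a20, a21, a22, a30, a31, a32, v0, v1, v2,
    v3]
  ring

/-- The determinant of a principal submatrix as the determinant of a masked matrix. -/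
lemma det_mask (B : Matrix (Fin 4) (Fin 4) ℝ) (α : Finset (Fin 4)) :
    (B.submatrix (fun i : α => (i : Fin 4)) (fun i : α => (i : Fin 4))).det =
      (Matrix.of fun i j : Fin 4 => if i ∈ α ∧ j ∈ α then B i j else if i = j then 1 else 0).det := by
  rw [Matrix.twoBlockTriangular_det _ (fun i => i ∈ α)]
  · have h2 : (Matrix.toSquareBlockProp (Matrix.of fun i j : Fin 4 =>
        if i ∈ α ∧ j ∈ α then B i j else if i = j then (1 : ℝ) else 0) fun i => ¬ i ∈ α) = 1 := by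
      ext i j
      have hi : (i : Fin 4) ∉ α := i.2
      simp only [Matrix.toSquareBlockProp_def, Matrix.of_apply, Matrix.one_apply, hi, false_and,
        if_false, Subtype.ext_iff]
    have h1 : (Matrix.toSquareBlockProp (Matrix.of fun i j : Fin 4 =>
        if i ∈ α ∧ j ∈ α then B i j else if i = j then (1 : ℝ) else 0) fun i => i ∈ α) =
        B.submatrix (fun i : α => (i : Fin 4)) (fun i : α => (i : Fin 4)) := by
      ext i j
      have hi : (i : Fin 4) ∈ α := i.2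
      have hj : (j : Fin 4) ∈ α := j.2
      simp only [Matrix.toSquareBlockProp_def, Matrix.of_apply, Matrix.submatrix_apply, hi, hj,
        and_self, if_true]
    rw [h1, h2, Matrix.det_one, mul_one]
    have key : ∀ (i1 i2 : Fintype {x // x ∈ α}) (C : Matrix {x // x ∈ α} {x // x ∈ α} ℝ),
        @Matrix.det _ _ i1 ℝ _ C = @Matrix.det _ _ i2 ℝ _ C := by
      intro i1 i2 C
      rw [Subsingleton.elim i1 i2]
    exact key _ _ _
  · intro i hi j hj
    simp only [Matrix.of_apply]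
    have hne : i ≠ j := fun h => hi (h ▸ hj)
    simp [hi, hne]

lemma all16 : ∀ α : Finset (Fin 4), α = ∅ ∨ α = {0} ∨ α = {1} ∨ α = {2} ∨ α = {3} ∨
    α = {0, 1} ∨ α = {0, 2} ∨ α = {0, 3} ∨ α = {1, 2} ∨ α = {1, 3} ∨ α = {2, 3} ∨
    α = {0, 1, 2} ∨ α = {0, 1, 3} ∨ α = {0, 2, 3} ∨ α = {1, 2, 3} ∨ α = {0, 1, 2, 3} := by
  decide

/-- The characteristic polynomial of a principal submatrix, up to sign. -/
noncomputable def q (α : Finset (Fin 4)) (x : ℝ) : ℝ :=
  if (3 : Fin 4) ∈ α then 80 * (1 - x) ^ (α.card - 1) - x * (10 - x) ^ (α.card - 1)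
  else (10 - x) ^ α.card

lemma A₀_sub (x : ℝ) : A₀ - x • (1 : Matrix (Fin 4) (Fin 4) ℝ) =
    !![10 - x, 9, 9, 10; 0, 10 - x, 9, 10; 0, 0, 10 - x, 10; 72, 72, 72, 80 - x] := by
  ext i j
  fin_cases i <;> fin_cases j <;> simp [A₀, M]

lemma det_prin_sub (α : Finset (Fin 4)) (x : ℝ) :
    (prin A₀ α - x • (1 : Matrix α α ℝ)).det = q α x := by
  have h : prin A₀ α - x • (1 : Matrix α α ℝ) =
      (A₀ - x • (1 : Matrix (Fin 4) (Fin 4) ℝ)).submatrix (fun i : α => (i : Fin 4))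
        (fun i : α => (i : Fin 4)) := by
    ext i j
    simp only [prin, Matrix.sub_apply, Matrix.submatrix_apply, Matrix.smul_apply,
      Matrix.one_apply, Subtype.coe_inj]
  rw [h, det_mask, det4, A₀_sub]
  simp only [Matrix.of_apply, Matrix.cons_val', Matrix.cons_val_zero, Matrix.cons_val_one,
    Matrix.cons_val, q]
  rcases all16 α with rfl | rfl | rfl | rfl | rfl | rfl | rfl | rfl | rfl | rfl | rfl | rfl |
    rfl | rfl | rfl | rfl <;>
  simp <;> ring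

lemma det_prin (α : Finset (Fin 4)) : (prin A₀ α).det = q α 0 := by
  have := det_prin_sub α 0
  simpa using this

lemma isPMatrix : IsPMatrix A₀ := by
  intro α
  rw [det_prin, q]
  split_ifs <;> norm_num

/-! #### Real eigenvalues -/

lemma mem_realEigs {m : Type*} [Fintype m] [DecidableEq m] (B : Matrix m m ℝ) (x : ℝ) :
    x ∈ realEigs B ↔ (B - x • (1 : Matrix m m ℝ)).det = 0 := by
  have h1 : B.map (fun t : ℝ => (t : ℂ)) - (x : ℂ) • (1 : Matrix m m ℂ) =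
      (B - x • (1 : Matrix m m ℝ)).map (fun t : ℝ => (t : ℂ)) := by
    ext i j
    by_cases hij : i = j <;> simp [hij]
  have h2 : ((B - x • (1 : Matrix m m ℝ)).map (fun t : ℝ => (t : ℂ))).det =
      (((B - x • (1 : Matrix m m ℝ)).det : ℝ) : ℂ) := by
    exact (RingHom.map_det Complex.ofRealHom (B - x • (1 : Matrix m m ℝ))).symm
  have h3 : IsUnit ((algebraMap ℂ (Matrix m m ℂ)) (x : ℂ) - B.map (fun t : ℝ => (t : ℂ))) ↔
      IsUnit (B.map (fun t : ℝ => (t : ℂ)) - (x : ℂ) • (1 : Matrix m m ℂ)) := by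
    rw [← IsUnit.neg_iff, neg_sub, Algebra.algebraMap_eq_smul_one]
  show (x : ℂ) ∈ spectrum ℂ (B.map (fun t : ℝ => (t : ℂ))) ↔ _
  rw [spectrum.mem_iff, h3, Matrix.isUnit_iff_isUnit_det, h1, h2, isUnit_iff_ne_zero, not_not]
  norm_cast

lemma mem_eigs_prin (α : Finset (Fin 4)) (x : ℝ) : x ∈ realEigs (prin A₀ α) ↔ q α x = 0 := by
  rw [mem_realEigs, det_prin_sub]

/-- The polynomial `80 (1 - x)^k - x (10 - x)^k`. -/
noncomputable def f (k : ℕ) (x : ℝ) : ℝ := 80 * (1 - x) ^ k - x * (10 - x) ^ k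

lemma f_cont (k : ℕ) : Continuous (f k) := by unfold f; fun_prop

lemma f_zero_pos (k : ℕ) : 0 ≤ f k 0 := by simp [f]

lemma exists_root_le (k : ℕ) (y : ℝ) (hy : 0 ≤ y) (h : f k y ≤ 0) : ∃ x, f k x = 0 ∧ x ≤ y := by
  have := intermediate_value_Icc' hy (f_cont k).continuousOn
  obtain ⟨x, hx, hfx⟩ := this ⟨h, f_zero_pos k⟩
  exact ⟨x, hfx, hx.2⟩

lemma f_one (k : ℕ) (hk : 1 ≤ k) : f k 1 ≤ 0 := by
  have : (1 : ℝ) - 1 = 0 := by norm_num
  rw [f, this, zero_pow (by omega)]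
  have : (0 : ℝ) ≤ (10 - 1) ^ k := by positivity
  linarith

lemma root_mono (j k : ℕ) (hjk : j ≤ k) (y : ℝ) (hy : f j y = 0) : ∃ x, f k x = 0 ∧ x ≤ y := by
  rcases hjk.eq_or_lt with rfl | hlt
  · exact ⟨y, hy, le_rfl⟩
  by_cases h1 : 1 ≤ y
  · obtain ⟨x, hx, hx1⟩ := exists_root_le k 1 zero_le_one (f_one k (by omega))
    exact ⟨x, hx, hx1.trans h1⟩
  push Not at h1
  have e : 80 * (1 - y) ^ j = y * (10 - y) ^ j := by unfold f at hy; linarith
  have p1 : 0 < (1 - y) ^ j := pow_pos (by linarith) _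
  have p10 : 0 < (10 - y) ^ j := pow_pos (by linarith) _
  have hy0 : 0 ≤ y := by
    by_contra hneg
    push Not at hneg
    have : y * (10 - y) ^ j < 0 := mul_neg_of_neg_of_pos hneg p10
    linarith
  apply exists_root_le k y hy0
  obtain ⟨d, rfl⟩ := Nat.exists_eq_add_of_le hjk
  have hpow : (1 - y) ^ d ≤ (10 - y) ^ d := pow_le_pow_left₀ (by linarith) (by linarith) d
  have : f (j + d) y = 80 * (1 - y) ^ j * ((1 - y) ^ d - (10 - y) ^ d) := by
    unfold f
    rw [pow_add, pow_add]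
    linear_combination (10 - y) ^ d * e
  rw [this]
  exact mul_nonpos_of_nonneg_of_nonpos (by positivity) (by linarith)

lemma q_of_mem {α : Finset (Fin 4)} (h : (3 : Fin 4) ∈ α) (x : ℝ) : q α x = f (α.card - 1) x := by
  simp [q, f, h]

lemma q_of_notMem {α : Finset (Fin 4)} (h : (3 : Fin 4) ∉ α) (x : ℝ) :
    q α x = (10 - x) ^ α.card := by
  simp [q, h]

/-- Every real eigenvalue of `A(β)` dominates one of `A(α)`, for `∅ ≠ β ⊆ α`. -/
lemma eig_mono {α β : Finset (Fin 4)} (hβ : β.Nonempty) (hαβ : β ⊆ α) (y : ℝ)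
    (hy : q β y = 0) : ∃ x, q α x = 0 ∧ x ≤ y := by
  by_cases h3β : (3 : Fin 4) ∈ β
  · have h3α : (3 : Fin 4) ∈ α := hαβ h3β
    simp only [q_of_mem h3α]
    rw [q_of_mem h3β] at hy
    exact root_mono _ _ (Nat.sub_le_sub_right (Finset.card_le_card hαβ) 1) y hy
  · rw [q_of_notMem h3β] at hy
    have hy10 : y = 10 := by
      have := pow_eq_zero_iff (Finset.card_pos.mpr hβ).ne' |>.mp hy
      linarith
    by_cases h3α : (3 : Fin 4) ∈ α
    · simp only [q_of_mem h3α]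
      have hcard : 1 ≤ α.card - 1 := by
        have h1 : β ⊆ α.erase 3 := by
          intro b hb
          exact Finset.mem_erase.mpr ⟨fun h => h3β (h ▸ hb), hαβ hb⟩
        have h2 := Finset.card_le_card h1
        rw [Finset.card_erase_of_mem h3α] at h2
        have h3 := Finset.card_pos.mpr hβ
        omega
      obtain ⟨x, hx, hx1⟩ := exists_root_le _ 1 zero_le_one (f_one _ hcard)
      exact ⟨x, hx, by linarith⟩
    · refine ⟨10, ?_, by linarith⟩
      rw [q_of_notMem h3α]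
      have : 0 < α.card := (Finset.card_pos.mpr hβ).trans_le (Finset.card_le_card hαβ)
      simp [this.ne']

lemma exists_eig {β : Finset (Fin 4)} (hβ : β.Nonempty) : ∃ x, q β x = 0 := by
  by_cases h3β : (3 : Fin 4) ∈ β
  · simp only [q_of_mem h3β]
    rcases Nat.eq_zero_or_pos (β.card - 1) with h0 | h0
    · exact ⟨80, by rw [h0]; simp [f]⟩
    · obtain ⟨x, hx, -⟩ := exists_root_le _ 1 zero_le_one (f_one _ h0)
      exact ⟨x, hx⟩
  · refine ⟨10, ?_⟩
    rw [q_of_notMem h3β]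
    have : 0 < β.card := Finset.card_pos.mpr hβ
    simp [this.ne']

lemma isOmega : IsOmega A₀ := by
  intro α β hβ hαβ
  constructor
  · apply le_sInf
    rintro _ ⟨y, hy, rfl⟩
    rw [mem_eigs_prin] at hy
    obtain ⟨x, hx, hxy⟩ := eig_mono hβ hαβ y hy
    have hle : ell (prin A₀ α) ≤ (x : EReal) :=
      sInf_le (Set.mem_image_of_mem _ ((mem_eigs_prin α x).mpr hx))
    refine hle.trans ?_
    exact EReal.coe_le_coe_iff.mpr hxy
  · obtain ⟨x, hx⟩ := exists_eig hβ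
    have hle : ell (prin A₀ β) ≤ (x : EReal) :=
      sInf_le (Set.mem_image_of_mem _ ((mem_eigs_prin β x).mpr hx))
    refine hle.trans_lt ?_
    exact EReal.coe_lt_top x

lemma isTau : IsTau A₀ := by
  refine ⟨isOmega, ?_⟩
  apply le_sInf
  rintro _ ⟨x, hx, rfl⟩
  rw [mem_realEigs, det4, A₀_sub] at hx
  simp only [Matrix.of_apply, Matrix.cons_val', Matrix.cons_val_zero, Matrix.cons_val_one,
    Matrix.cons_val] at hx
  have hx' : 80 * (1 - x) ^ 3 - x * (10 - x) ^ 3 = 0 := by linear_combination hx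
  show ((0 : ℝ) : EReal) ≤ (x : EReal)
  rw [EReal.coe_le_coe_iff]
  by_contra hneg
  push Not at hneg
  have h1 : 0 < (1 - x) ^ 3 := pow_pos (by linarith) _
  have h2 : 0 < (10 - x) ^ 3 := pow_pos (by linarith) _
  have h3 : x * (10 - x) ^ 3 < 0 := mul_neg_of_neg_of_pos hneg h2
  linarith

/-! #### Newton's inequality fails -/

lemma sum_eq (j : ℕ) : ∑ α ∈ (Finset.univ : Finset (Fin 4)).powersetCard j, (prin A₀ α).det =
    (((Finset.univ : Finset (Fin 4)).powersetCard j).filter (fun α => (3 : Fin 4) ∈ α)).card * 80 +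
    (((Finset.univ : Finset (Fin 4)).powersetCard j).filter (fun α => ¬ (3 : Fin 4) ∈ α)).card *
      10 ^ j := by
  have : ∀ α ∈ (Finset.univ : Finset (Fin 4)).powersetCard j, (prin A₀ α).det =
      if (3 : Fin 4) ∈ α then (80 : ℝ) else 10 ^ j := by
    intro α hα
    rw [det_prin, q]
    rw [Finset.mem_powersetCard] at hα
    split_ifs with h
    · simp
    · simp [hα.2]
  rw [Finset.sum_congr rfl this, Finset.sum_ite, Finset.sum_const, Finset.sum_const]
  simp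

lemma c_one : c A₀ 1 = 55 / 2 := by
  have h1 : (((Finset.univ : Finset (Fin 4)).powersetCard 1).filter
    (fun α => (3 : Fin 4) ∈ α)).card = 1 := by decide
  have h2 : (((Finset.univ : Finset (Fin 4)).powersetCard 1).filter
    (fun α => ¬ (3 : Fin 4) ∈ α)).card = 3 := by decide
  rw [c, sum_eq, h1, h2]
  norm_num [Nat.choose]

lemma c_two : c A₀ 2 = 90 := by
  have h1 : (((Finset.univ : Finset (Fin 4)).powersetCard 2).filter
    (fun α => (3 : Fin 4) ∈ α)).card = 3 := by decide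
  have h2 : (((Finset.univ : Finset (Fin 4)).powersetCard 2).filter
    (fun α => ¬ (3 : Fin 4) ∈ α)).card = 3 := by decide
  rw [c, sum_eq, h1, h2]
  norm_num [Nat.choose]

lemma c_three : c A₀ 3 = 310 := by
  have h1 : (((Finset.univ : Finset (Fin 4)).powersetCard 3).filter
    (fun α => (3 : Fin 4) ∈ α)).card = 3 := by decide
  have h2 : (((Finset.univ : Finset (Fin 4)).powersetCard 3).filter
    (fun α => ¬ (3 : Fin 4) ∈ α)).card = 1 := by decide
  rw [c, sum_eq, h1, h2]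
  norm_num [Nat.choose]

end Pool.Agent.Results.MP_a5d893_al.NewtonFails

open Pool.Agent.Results.MP_a5d893_al.NewtonFails in
/-- There is a `4 × 4` GKK `τ`-matrix that violates Newton's inequality `c_2² ≥ c_1 c_3`. -/
theorem Pool.Agent.Results.MP_a5d893_al.NewtonFails.result :
    ∃ A : Matrix (Fin 4) (Fin 4) ℝ, IsGKK A ∧ IsTau A ∧ c A 2 ^ 2 < c A 1 * c A 3 := by
  refine ⟨A₀, ⟨weaklySignSymmetric, isPMatrix⟩, isTau, ?_⟩
  rw [c_one, c_two, c_three]
  norm_num
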